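import Pool.Agent.helper69.MB.Both

/-!
# MP_81c801_nt: Q1 in every multiplicatively closed set of positive rationals

Let `S` be a set of positive rationals, closed under multiplication and not contained in `{1}`. For
every `ε > 0` there is a finite non-empty subset `D` of `S` such that for every `r` in `S` at least
`(1/16 - ε) |D|` of the products `r d`, `d ∈ D`, have infinitely many representations in both forms
of Q1.
-/

set_option autoImplicit false

namespace Pool.Agent.Results.MP_81c801_nt.ClosedSets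

theorem result (S : Set ℚ) (hpos : ∀ s ∈ S, 0 < s) (hmul : ∀ s ∈ S, ∀ t ∈ S, s * t ∈ S)
    (hne : ∃ c ∈ S, c ≠ 1) (ε : ℝ) (hε : 0 < ε) :
    ∃ D : Finset ℚ, D.Nonempty ∧ (D : Set ℚ) ⊆ S ∧ ∀ r ∈ S,
      (1 / 16 - ε) * (D.card : ℝ) ≤ (({d : ℚ | d ∈ D ∧
        {x : ℕ × ℕ | x.1.Prime ∧ x.2.Prime ∧ ((x.1 : ℚ) + 1) / ((x.2 : ℚ) + 1) = r * d}.Infinite ∧
        {x : ℕ × ℕ | x.1.Prime ∧ x.2.Prime ∧
          ((x.1 : ℚ) - 1) / ((x.2 : ℚ) - 1) = r * d}.Infinite}).ncard : ℝ) :=
  Pool.Agent.helper69.MB.both S hpos hmul hne ε hε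

end Pool.Agent.Results.MP_81c801_nt.ClosedSets
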