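import Pool.Agent.helper24.BVD.FinMult
import Pool.Agent.helper24.BVD.PD
import Pool.Agent.helper15.SP.PosDens

/-!
# MP_81c801_nt: a positive proportion of the integers satisfies Schinzel's assertion

For every positive rational `r` a positive proportion of the integers `n ≤ N`, uniformly in `r`,
is such that `n r` satisfies the whole assertion of Q1; moreover some such `n` lies in a finite set
which does not depend on `r`. For `r = 1`: a positive proportion of the positive integers satisfies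
the whole assertion of Q1.
-/

set_option autoImplicit false

namespace Pool.Agent.Results.MP_81c801_nt.PositiveProportion

theorem result :
    ∃ (c : ℝ) (N₀ : ℕ) (D : Finset ℕ), 0 < c ∧ (∀ d ∈ D, 0 < d) ∧ ∀ r : ℚ, 0 < r →
      (∀ N : ℕ, N₀ ≤ N → c * N ≤ ({n : ℕ | 1 ≤ n ∧ n ≤ N ∧
        {x : ℕ × ℕ | x.1.Prime ∧ x.2.Prime ∧
          ((x.1 : ℚ) + 1) / ((x.2 : ℚ) + 1) = (n : ℚ) * r}.Infinite ∧
        {x : ℕ × ℕ | x.1.Prime ∧ x.2.Prime ∧
          ((x.1 : ℚ) - 1) / ((x.2 : ℚ) - 1) = (n : ℚ) * r}.Infinite}.ncard : ℝ)) ∧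
      ∃ n ∈ D,
        {x : ℕ × ℕ | x.1.Prime ∧ x.2.Prime ∧
          ((x.1 : ℚ) + 1) / ((x.2 : ℚ) + 1) = (n : ℚ) * r}.Infinite ∧
        {x : ℕ × ℕ | x.1.Prime ∧ x.2.Prime ∧
          ((x.1 : ℚ) - 1) / ((x.2 : ℚ) - 1) = (n : ℚ) * r}.Infinite := by
  obtain ⟨D, hD, h⟩ := BVD.finMult BVD.pd
  obtain ⟨c, hc, N₀, h2⟩ := Pool.Agent.helper15.SP.posDens (good := fun t =>
    {x : ℕ × ℕ | x.1.Prime ∧ x.2.Prime ∧ ((x.1 : ℚ) + 1) / ((x.2 : ℚ) + 1) = t}.Infinite ∧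
    {x : ℕ × ℕ | x.1.Prime ∧ x.2.Prime ∧ ((x.1 : ℚ) - 1) / ((x.2 : ℚ) - 1) = t}.Infinite)
    hD h
  exact ⟨c, N₀, D, hc, hD, fun r hr => ⟨h2 r hr, h r hr⟩⟩

end Pool.Agent.Results.MP_81c801_nt.PositiveProportion
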