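import Pool.Agent.helper24.BVD.Final
import Pool.Agent.helper24.BVD.PD

/-!
# MP_81c801_nt: ratios of shifted primes in every large finite set of positive rationals

Each of the two equations of Q1.  Combination of the Bombieri-Vinogradov theorem (proved in
`Pool/Agent/helper24/BV`, `Pool/Agent/helper73/BV`, `Pool/Agent/helper10/BV`), the Maynard-Tao
weights for linear forms (`Pool/Agent/helper31/BVM`) and a second moment.
-/

set_option autoImplicit false

namespace Pool.Agent.Results.MP_81c801_nt.RatioPairDensity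

theorem result : ∀ ε : ℝ, 0 < ε →
    ∃ K : ℕ, ∀ s : ℤ, s = 1 ∨ s = -1 → ∀ A : Finset ℚ, (∀ r ∈ A, 0 < r) → K ≤ A.card →
      (1 / 4 - ε) * (A.card : ℝ) ^ 2 ≤
        (({p : ℚ × ℚ | p.1 ∈ A ∧ p.2 ∈ A ∧ p.1 ≠ p.2 ∧
          {x : ℕ × ℕ | x.1.Prime ∧ x.2.Prime ∧
            ((x.1 : ℚ) + s) / ((x.2 : ℚ) + s) = p.1 / p.2}.Infinite}).ncard : ℝ) :=
  fun ε hε => BVD.ratioDensity BVD.pd ε hε

end Pool.Agent.Results.MP_81c801_nt.RatioPairDensity
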