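import Pool.Agent.helper24.BVD.KerRatio
import Pool.Agent.helper10.BV.Final

/-!
# MP_81c801_nt: both equations of Q1 for one sixteenth of the ratios from every large finite set
-/

set_option autoImplicit false

namespace Pool.Agent.Results.MP_81c801_nt.SimultaneousRatios

theorem result : ∀ ε : ℝ, 0 < ε →
    ∃ K : ℕ, ∀ A : Finset ℚ, (∀ r ∈ A, 0 < r) → K ≤ A.card →
      (1 / 16 - ε) * (A.card : ℝ) ^ 2 ≤
        (({p : ℚ × ℚ | p.1 ∈ A ∧ p.2 ∈ A ∧ p.1 ≠ p.2 ∧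
          {x : ℕ × ℕ | x.1.Prime ∧ x.2.Prime ∧
            ((x.1 : ℚ) + 1) / ((x.2 : ℚ) + 1) = p.1 / p.2}.Infinite ∧
          {x : ℕ × ℕ | x.1.Prime ∧ x.2.Prime ∧
            ((x.1 : ℚ) - 1) / ((x.2 : ℚ) - 1) = p.1 / p.2}.Infinite}).ncard : ℝ) :=
  fun ε hε => BVD.bothDensity16 BVM.bvInput ε hε

end Pool.Agent.Results.MP_81c801_nt.SimultaneousRatios
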